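import Pool.Agent.Helper77.DS.Col

/-!
MP_b07a0a_ag, piece DS-1: extraction of weight components, derivations and permutations from a
submodule of functions of one column closed under matrices.
-/

namespace Pool.Agent.Helper77.DS

noncomputable section

namespace H8

open MvPolynomial

/-- extraction of coefficients. -/
theorem extract {V σ ι : Type} [AddCommGroup V] [Module ℂ V] [DecidableEq σ]
    (W : Submodule ℂ V) (s : Finset ι) (e : ι → σ →₀ ℕ) (p : ι → V)
    (h : ∀ x : σ → ℂ, ∑ i ∈ s, ((e i).prod fun c n => x c ^ n) • p i ∈ W) (μ : σ →₀ ℕ) :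
    ∑ i ∈ s with e i = μ, p i ∈ W := by
  by_contra hb
  obtain ⟨φ, hφ, hφQ⟩ := Submodule.exists_dual_map_eq_bot_of_notMem hb inferInstance
  apply hφ
  have hz : ∀ g ∈ W, φ g = 0 := by
    intro g hg
    have : φ g ∈ W.map φ := Submodule.mem_map_of_mem hg
    rw [hφQ] at this
    simpa using this
  let P : MvPolynomial σ ℂ := ∑ i ∈ s, monomial (e i) (φ (p i))
  have hP : P = 0 := by
    refine MvPolynomial.funext fun x => ?_
    rw [map_zero, map_sum, ← hz _ (h x), map_sum]
    refine Finset.sum_congr rfl fun i _ => ?_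
    rw [map_smul, eval_monomial, smul_eq_mul, mul_comm]
  have h2 : coeff μ P = 0 := by
    rw [hP, coeff_zero]
  rw [coeff_sum] at h2
  simp only [coeff_monomial] at h2
  rw [← Finset.sum_filter] at h2
  rw [map_sum]
  exact h2

variable {R E Y : Type} [Fintype R] [DecidableEq R] [Fintype E] [DecidableEq E] [AddCommGroup Y]
  [Module ℂ Y]

/-- the exponent of a word. -/
def expo (u : R → E) : E →₀ ℕ := ∑ r, Finsupp.single (u r) 1

omit [DecidableEq R] [Fintype E] in
theorem expo_apply (u : R → E) (c : E) : expo u c = cnt u c := by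
  rw [expo, Finsupp.finsetSum_apply, cnt, Finset.card_filter]
  exact Finset.sum_congr rfl fun r _ => by rw [Finsupp.single_apply]

theorem expo_prod (u : R → E) (x : E → ℂ) :
    ((expo u).prod fun c n => x c ^ n) = ∏ r, x (u r) := by
  rw [expo, ← Finsupp.prod_finsetSum_index (h := fun c n => x c ^ n) (fun _ => pow_zero _)
    (fun _ _ _ => pow_add _ _ _)]
  refine Finset.prod_congr rfl fun r _ => ?_
  rw [Finsupp.prod_single_index (h := fun c n => x c ^ n) (pow_zero _), pow_one]

theorem cact_diag (x : E → ℂ) (F : (R → E) → Y) (u : R → E) :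
    cact (fun c c' => if c = c' then x c else 0) F u = (∏ r, x (u r)) • F u := by
  rw [cact, Finset.sum_eq_single u]
  · simp
  · intro v _ hv
    obtain ⟨r, hr⟩ := Function.ne_iff.1 hv
    rw [Finset.prod_eq_zero (Finset.mem_univ r) (if_neg (Ne.symm hr)), zero_smul]
  · intro h
    exact absurd (Finset.mem_univ _) h

theorem weight_mem' (N : Submodule ℂ ((R → E) → Y)) (hN : ∀ B : E → E → ℂ, ∀ F ∈ N, cact B F ∈ N)
    (F : (R → E) → Y) (hF : F ∈ N) (μ : E → ℕ) (g : (R → E) → Y)
    (h1 : ∀ u, cnt u = μ → g u = F u) (h2 : ∀ u, cnt u ≠ μ → g u = 0) : g ∈ N := by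
  have key := extract N Finset.univ (fun u : R → E => expo u) (fun u => Pi.single u (F u))
    (fun x => by
      have h := hN (fun c c' => if c = c' then x c else 0) F hF
      convert h using 1
      funext u
      rw [cact_diag, Finset.sum_apply, Finset.sum_eq_single u]
      · rw [expo_prod, Pi.smul_apply, Pi.single_eq_same]
      · intro v _ hv
        rw [Pi.smul_apply, Pi.single_eq_of_ne hv.symm, smul_zero]
      · intro h
        exact absurd (Finset.mem_univ _) h) (Finsupp.equivFunOnFinite.symm μ)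
  convert key using 1
  funext u
  rw [Finset.sum_apply]
  by_cases hu : cnt u = μ
  · rw [Finset.sum_eq_single u]
    · rw [Pi.single_eq_same, h1 u hu]
    · intro v _ hv
      rw [Pi.single_eq_of_ne hv.symm]
    · intro h
      refine absurd ?_ h
      rw [Finset.mem_filter]
      refine ⟨Finset.mem_univ _, ?_⟩
      ext c
      rw [expo_apply, hu]
      rfl
  · rw [h2 u hu]
    symm
    refine Finset.sum_eq_zero fun v hv => ?_
    rw [Finset.mem_filter] at hv
    refine Pi.single_eq_of_ne ?_ _
    rintro rfl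
    apply hu
    funext c
    rw [← expo_apply, hv.2]
    rfl

theorem cact_el (a b : E) (τ : ℂ) (F : (R → E) → Y) (u : R → E) :
    cact (fun c c' => (if c = a ∧ c' = b then τ else 0) + (if c = c' then 1 else 0)) F u
      = ∑ S : Finset R, τ ^ S.card • (if ∀ r ∈ S, u r = a then F (S.piecewise (fun _ => b) u)
        else 0) := by
  rw [cact]
  simp_rw [Finset.prod_add, Finset.sum_smul]
  rw [Finset.sum_comm, Finset.powerset_univ]
  refine Finset.sum_congr rfl fun S _ => ?_
  rw [Finset.sum_eq_single (S.piecewise (fun _ => b) u)]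
  · have e1 : ∏ r ∈ Finset.univ \ S, (if u r = S.piecewise (fun _ => b) u r then (1 : ℂ) else 0)
        = 1 := by
      refine Finset.prod_eq_one fun r hr => ?_
      rw [Finset.mem_sdiff] at hr
      rw [Finset.piecewise_eq_of_notMem _ _ _ hr.2, if_pos rfl]
    have e2 : ∏ r ∈ S, (if u r = a ∧ S.piecewise (fun _ => b) u r = b then τ else 0)
        = if ∀ r ∈ S, u r = a then τ ^ S.card else 0 := by
      by_cases h : ∀ r ∈ S, u r = a
      · rw [if_pos h, ← Finset.prod_const]
        refine Finset.prod_congr rfl fun r hr => ?_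
        rw [Finset.piecewise_eq_of_mem _ _ _ hr, if_pos ⟨h r hr, rfl⟩]
      · rw [if_neg h]
        push Not at h
        obtain ⟨r, hr, hne⟩ := h
        exact Finset.prod_eq_zero hr (if_neg (fun h => hne h.1))
    rw [e1, e2, mul_one]
    by_cases h : ∀ r ∈ S, u r = a
    · rw [if_pos h, if_pos h]
    · rw [if_neg h, if_neg h, zero_smul, smul_zero]
  · intro v _ hv
    obtain ⟨r, hr⟩ := Function.ne_iff.1 hv
    by_cases hS : r ∈ S
    · rw [Finset.piecewise_eq_of_mem _ _ _ hS] at hr
      rw [Finset.prod_eq_zero hS (if_neg (fun h => hr h.2)), zero_mul, zero_smul]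
    · rw [Finset.piecewise_eq_of_notMem _ _ _ hS] at hr
      rw [Finset.prod_eq_zero (i := r) (s := Finset.univ \ S)
        (Finset.mem_sdiff.2 ⟨Finset.mem_univ _, hS⟩) (if_neg (Ne.symm hr)), mul_zero, zero_smul]
  · intro h
    exact absurd (Finset.mem_univ _) h

theorem deriv_mem' (N : Submodule ℂ ((R → E) → Y)) (hN : ∀ B : E → E → ℂ, ∀ F ∈ N, cact B F ∈ N)
    (F : (R → E) → Y) (hF : F ∈ N) (a b : E) :
    (fun u => ∑ r ∈ Finset.univ.filter (fun r => u r = a), F (Function.update u r b)) ∈ N := by
  have key := extract (σ := Unit) N Finset.univ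
    (fun S : Finset R => Finsupp.single () S.card)
    (fun S u => if ∀ r ∈ S, u r = a then F (S.piecewise (fun _ => b) u) else 0)
    (fun x => by
      have h := hN (fun c c' => (if c = a ∧ c' = b then x () else 0) + (if c = c' then 1 else 0))
        F hF
      convert h using 1
      funext u
      rw [cact_el, Finset.sum_apply]
      refine Finset.sum_congr rfl fun S _ => ?_
      rw [Pi.smul_apply, Finsupp.prod_single_index (h := fun c n => x c ^ n) (pow_zero _)])
    (Finsupp.single () 1)
  have hfil : (Finset.univ.filter fun S : Finset R =>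
      (Finsupp.single () S.card : Unit →₀ ℕ) = Finsupp.single () 1)
      = Finset.powersetCard 1 Finset.univ := by
    ext S
    simp only [Finset.mem_filter, Finset.mem_univ, true_and, Finset.mem_powersetCard,
      Finset.subset_univ]
    exact ⟨fun h => Finsupp.single_injective _ h, fun h => by rw [h]⟩
  rw [hfil, Finset.powersetCard_one, Finset.sum_map] at key
  convert key using 1
  funext u
  rw [Finset.sum_apply, Finset.sum_filter]
  refine Finset.sum_congr rfl fun r _ => ?_
  simp [Finset.piecewise_singleton]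

theorem perm_mem' (N : Submodule ℂ ((R → E) → Y)) (hN : ∀ B : E → E → ℂ, ∀ F ∈ N, cact B F ∈ N)
    (F : (R → E) → Y) (hF : F ∈ N) (π : Equiv.Perm E) : (fun u => F (fun r => π (u r))) ∈ N := by
  have h := hN (fun c c' => if c' = π c then 1 else 0) F hF
  convert h using 1
  funext u
  rw [cact, Finset.sum_eq_single (fun r => π (u r))]
  · simp
  · intro v _ hv
    obtain ⟨r, hr⟩ := Function.ne_iff.1 hv
    rw [Finset.prod_eq_zero (Finset.mem_univ r) (if_neg hr), zero_smul]
  · intro h
    exact absurd (Finset.mem_univ _) h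

end H8

section

variable {R E Y : Type} [Fintype R] [DecidableEq R] [Fintype E] [DecidableEq E] [AddCommGroup Y]
  [Module ℂ Y]

open Classical in
/-- DS-1a -/
theorem weight_mem (N : Submodule ℂ ((R → E) → Y)) (hN : ∀ B : E → E → ℂ, ∀ F ∈ N, cact B F ∈ N)
    (F : (R → E) → Y) (hF : F ∈ N) (μ : E → ℕ) :
    (fun u => if cnt u = μ then F u else 0) ∈ N :=
  H8.weight_mem' N hN F hF μ _ (fun _ hu => if_pos hu) (fun _ hu => if_neg hu)

/-- DS-1b -/
theorem deriv_mem (N : Submodule ℂ ((R → E) → Y)) (hN : ∀ B : E → E → ℂ, ∀ F ∈ N, cact B F ∈ N)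
    (F : (R → E) → Y) (hF : F ∈ N) (a b : E) (hab : a ≠ b) :
    (fun u => ∑ r ∈ Finset.univ.filter (fun r => u r = a), F (Function.update u r b)) ∈ N :=
  H8.deriv_mem' N hN F hF a b

/-- DS-1c -/
theorem perm_mem (N : Submodule ℂ ((R → E) → Y)) (hN : ∀ B : E → E → ℂ, ∀ F ∈ N, cact B F ∈ N)
    (F : (R → E) → Y) (hF : F ∈ N) (π : Equiv.Perm E) : (fun u => F (fun r => π (u r))) ∈ N :=
  H8.perm_mem' N hN F hF π

end

end

end Pool.Agent.Helper77.DS
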